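import Mathlib

/-! The bidirectional `k`-neighbour graph on the lattice `ℤ^d`. -/

namespace Pool.Agent.Work.MP_e5a0e3_pr

open MeasureTheory ProbabilityTheory

/-- The `2 d` nearest neighbours of `x` in `ℤ^d`. -/
def nbrs {d : ℕ} (x : Fin d → ℤ) : Set (Fin d → ℤ) :=
  {y | ∃ i, y = x + Pi.single i 1 ∨ y = x - Pi.single i 1}

/-- The law of `(N x)_x`: independent, each uniform among the `k`-element sets of neighbours. -/
noncomputable def law (d k : ℕ) : Measure ((Fin d → ℤ) → Finset (Fin d → ℤ)) :=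
  Measure.infinitePi fun x => uniformOn {s : Finset (Fin d → ℤ) | ↑s ⊆ nbrs x ∧ s.card = k}

/-- The nearest-neighbour pair `x, y` is an open edge: each vertex chose the other. -/
def IsOpenEdge {d : ℕ} (N : (Fin d → ℤ) → Finset (Fin d → ℤ)) (x y : Fin d → ℤ) : Prop :=
  y ∈ nbrs x ∧ y ∈ N x ∧ x ∈ N y

/-- The probability that the open cluster of the origin is infinite. -/
noncomputable def theta (k d : ℕ) : ENNReal :=
  law d k {N | {y | Relation.ReflTransGen (IsOpenEdge N) 0 y}.Infinite}

end Pool.Agent.Work.MP_e5a0e3_pr
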