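import Mathlib

/-! A Lyapunov function for the difference of two oriented random walks. -/

namespace Pool.Agent.Work.MP_e5a0e3_pr

open Finset

variable {d : ℕ}

/-- The unit vector. -/
def ev (i : Fin d) : Fin d → ℤ := Pi.single i 1

/-- Squared Euclidean norm. -/
noncomputable def nsq (z : Fin d → ℤ) : ℝ := ∑ l, ((z l : ℤ) : ℝ) ^ 2

/-- The Lyapunov function. -/
noncomputable def hh (z : Fin d → ℤ) : ℝ := 1 + 8 / (nsq z + 8)

lemma nsq_nonneg (z : Fin d → ℤ) : 0 ≤ nsq z := sum_nonneg fun _ _ => sq_nonneg _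

lemma ev_injective : Function.Injective (ev : Fin d → Fin d → ℤ) := by
  intro i j h
  by_contra hij
  have := congrFun h i
  simp [ev, hij] at this

lemma one_le_hh (z : Fin d → ℤ) : 1 ≤ hh z := by
  have := nsq_nonneg z
  have h : 0 ≤ 8 / (nsq z + 8) := by positivity
  unfold hh; linarith

lemma hh_zero : hh (0 : Fin d → ℤ) = 2 := by
  simp [hh, nsq]; norm_num

/-- Increment of the squared norm. -/
noncomputable def del (z : Fin d → ℤ) (i j : Fin d) : ℝ :=
  2 * ((z i : ℝ) - z j) + if i = j then 0 else 2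

lemma nsq_step (z : Fin d → ℤ) (i j : Fin d) : nsq (z + ev i - ev j) = nsq z + del z i j := by
  by_cases hij : i = j
  · subst hij; simp [del]
  · have h : ∀ l, (((z + ev i - ev j) l : ℤ) : ℝ) ^ 2 = ((z l : ℤ) : ℝ) ^ 2 +
        (if l = i then 2 * (z i : ℝ) + 1 else 0) + (if l = j then -2 * (z j : ℝ) + 1 else 0) := by
      intro l
      by_cases hi : l = i
      · subst hi
        simp [ev, hij]; ring
      · by_cases hj : l = j
        · subst hj
          simp [ev, hi]; ring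
        · simp [ev, hi, hj]
    unfold nsq
    simp only [h, sum_add_distrib, sum_ite_eq', mem_univ, if_true, del, if_neg hij]
    ring

lemma two_sq_le (z : Fin d → ℤ) {i j : Fin d} (hij : i ≠ j) :
    (z i : ℝ) ^ 2 + (z j : ℝ) ^ 2 ≤ nsq z := by
  have : ∑ l ∈ ({i, j} : Finset (Fin d)), ((z l : ℤ) : ℝ) ^ 2 ≤ nsq z :=
    sum_le_sum_of_subset_of_nonneg (subset_univ _) fun _ _ _ => sq_nonneg _
  rwa [sum_pair hij] at this

lemma half_le (z : Fin d → ℤ) (i j : Fin d) : (nsq z + 8) / 2 ≤ nsq z + 8 + del z i j := by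
  have h0 := nsq_nonneg z
  by_cases hij : i = j
  · subst hij; simp [del]; linarith
  · have := two_sq_le z hij
    simp only [del, if_neg hij]
    nlinarith [sq_nonneg ((z i : ℝ) + 2), sq_nonneg ((z j : ℝ) - 2)]

lemma inv_bound {s D : ℝ} (hs : 0 < s) (h : s / 2 ≤ s + D) :
    1 / (s + D) ≤ 1 / s - D / s ^ 2 + 2 * D ^ 2 / s ^ 3 := by
  have h1 : 0 < s + D := by linarith
  have e : 1 / (s + D) = 1 / s - D / s ^ 2 + D ^ 2 / (s ^ 2 * (s + D)) := by
    field_simp; ring
  have h2 : D ^ 2 / (s ^ 2 * (s + D)) ≤ 2 * D ^ 2 / s ^ 3 := by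
    rw [div_le_div_iff₀ (by positivity) (by positivity)]
    have : 0 ≤ D ^ 2 * s ^ 2 * (2 * (s + D) - s) := by
      apply mul_nonneg (by positivity); linarith
    nlinarith
  linarith

lemma sum_sub_zero (z : Fin d → ℤ) : ∑ i, ∑ j, ((z i : ℝ) - z j) = 0 := by
  simp only [sum_sub_distrib, sum_const, card_univ, Fintype.card_fin, nsmul_eq_mul, ← mul_sum]
  ring

lemma sum_del (z : Fin d → ℤ) : ∑ i, ∑ j, del z i j = 2 * ((d : ℝ) ^ 2 - d) := by
  have h : ∀ i j : Fin d, del z i j = 2 * ((z i : ℝ) - z j) + (2 - if i = j then 2 else 0) := by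
    intro i j; unfold del; split_ifs <;> ring
  simp only [h, sum_add_distrib, ← mul_sum, sum_sub_zero]
  simp only [sum_sub_distrib, sum_ite_eq, mem_univ, if_true, sum_const, card_univ,
    Fintype.card_fin, nsmul_eq_mul]
  ring

lemma sum_sq_sub (z : Fin d → ℤ) : ∑ i, ∑ j, ((z i : ℝ) - z j) ^ 2 ≤ 2 * d * nsq z := by
  have h : ∀ i j : Fin d, ((z i : ℝ) - z j) ^ 2 =
      (z i : ℝ) ^ 2 + (z j : ℝ) ^ 2 - 2 * ((z i : ℝ) * z j) := by
    intro i j; ring
  simp only [h, sum_sub_distrib, sum_add_distrib, sum_const, card_univ, Fintype.card_fin,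
    nsmul_eq_mul, ← mul_sum, ← sum_mul]
  unfold nsq
  nlinarith [mul_self_nonneg (∑ i, (z i : ℝ))]

lemma sum_del_sq (z : Fin d → ℤ) :
    ∑ i, ∑ j, del z i j ^ 2 ≤ 8 * d * nsq z + 4 * (d : ℝ) ^ 2 := by
  have h : ∀ i j : Fin d, del z i j ^ 2 ≤
      4 * ((z i : ℝ) - z j) ^ 2 + 8 * ((z i : ℝ) - z j) + 4 := by
    intro i j
    unfold del
    split_ifs with hij
    · subst hij; simp
    · nlinarith
  calc ∑ i, ∑ j, del z i j ^ 2
      ≤ ∑ i, ∑ j, (4 * ((z i : ℝ) - z j) ^ 2 + 8 * ((z i : ℝ) - z j) + 4) :=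
        sum_le_sum fun i _ => sum_le_sum fun j _ => h i j
    _ = 4 * ∑ i, ∑ j, ((z i : ℝ) - z j) ^ 2 + 4 * (d : ℝ) ^ 2 := by
        simp only [sum_add_distrib, ← mul_sum, sum_sub_zero, sum_const, card_univ,
          Fintype.card_fin, nsmul_eq_mul]
        ring
    _ ≤ _ := by have := sum_sq_sub z; linarith

lemma hit_sum (z : Fin d → ℤ) (K : ℝ) (hK : 0 ≤ K) :
    ∑ i, ∑ j, (if z + ev i - ev j = 0 then K else 0) ≤ if nsq z ≤ 2 then d * K else 0 := by
  split_ifs with hz
  · have : ∀ i : Fin d, ∑ j, (if z + ev i - ev j = 0 then K else 0) ≤ K := by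
      intro i
      by_cases h : ∃ j, z + ev i - ev j = 0
      · obtain ⟨j0, hj0⟩ := h
        rw [sum_eq_single j0]
        · simp [hj0]
        · intro j _ hj
          rw [if_neg]
          intro h
          apply hj
          apply ev_injective
          have : ev j = z + ev i := (sub_eq_zero.mp h).symm
          rw [this]; exact sub_eq_zero.mp hj0
        · simp
      · push Not at h
        simp [h, hK]
    calc _ ≤ ∑ _i : Fin d, K := sum_le_sum fun i _ => this i
      _ = _ := by simp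
  · apply le_of_eq
    refine sum_eq_zero fun i _ => sum_eq_zero fun j _ => if_neg fun h => hz ?_
    have e : z = 0 + ev j - ev i := by
      have : z + ev i = ev j := sub_eq_zero.mp h
      rw [← this]; abel
    rw [e, nsq_step]
    simp only [nsq, del, Pi.zero_apply, Int.cast_zero]
    split_ifs <;> simp

lemma lyap_step (hd : 16 ≤ d) {c : ℝ} (hc : c ≤ d / 32) (z : Fin d → ℤ) :
    ∑ i, ∑ j, (if z + ev i - ev j = 0 then c else 1) * hh (z + ev i - ev j) ≤
      (d : ℝ) ^ 2 * hh z := by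
  have h0 := nsq_nonneg z
  have hd' : (16 : ℝ) ≤ d := by exact_mod_cast hd
  set s := nsq z + 8 with hs
  have hs0 : 0 < s := by linarith
  have term : ∀ i j, (if z + ev i - ev j = 0 then c else 1) * hh (z + ev i - ev j) ≤
      (1 + 8 / s) - 8 / s ^ 2 * del z i j + 16 / s ^ 3 * del z i j ^ 2 +
        (if z + ev i - ev j = 0 then (d : ℝ) / 16 else 0) := by
    intro i j
    have hb := inv_bound hs0 (half_le z i j)
    have hh1 : hh (z + ev i - ev j) ≤
        (1 + 8 / s) - 8 / s ^ 2 * del z i j + 16 / s ^ 3 * del z i j ^ 2 := by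
      unfold hh
      rw [nsq_step]
      have e1 : 8 / (nsq z + del z i j + 8) = 8 * (1 / (s + del z i j)) := by
        rw [hs]; ring_nf
      rw [e1]
      have e2 : (1 + 8 / s) - 8 / s ^ 2 * del z i j + 16 / s ^ 3 * del z i j ^ 2 =
          1 + 8 * (1 / s - del z i j / s ^ 2 + 2 * del z i j ^ 2 / s ^ 3) := by ring
      rw [e2]; linarith
    split_ifs with h
    · rw [h, hh_zero] at hh1 ⊢
      linarith
    · linarith
  have h1 := sum_del z
  have h2 := sum_del_sq z
  have h3 := hit_sum z ((d : ℝ) / 16) (by positivity)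
  calc _ ≤ ∑ i, ∑ j, ((1 + 8 / s) - 8 / s ^ 2 * del z i j + 16 / s ^ 3 * del z i j ^ 2 +
        (if z + ev i - ev j = 0 then (d : ℝ) / 16 else 0)) :=
        sum_le_sum fun i _ => sum_le_sum fun j _ => term i j
    _ = (d : ℝ) ^ 2 * (1 + 8 / s) - 8 / s ^ 2 * ∑ i, ∑ j, del z i j +
        16 / s ^ 3 * ∑ i, ∑ j, del z i j ^ 2 +
        ∑ i, ∑ j, (if z + ev i - ev j = 0 then (d : ℝ) / 16 else 0) := by
        simp only [sum_add_distrib, sum_sub_distrib, ← mul_sum, sum_const, card_univ,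
          Fintype.card_fin, nsmul_eq_mul]
        ring
    _ ≤ (d : ℝ) ^ 2 * (1 + 8 / s) - 8 / s ^ 2 * (2 * ((d : ℝ) ^ 2 - d)) +
        16 / s ^ 3 * (8 * d * nsq z + 4 * (d : ℝ) ^ 2) +
        (if nsq z ≤ 2 then d * ((d : ℝ) / 16) else 0) := by
        rw [h1]
        have : 16 / s ^ 3 * ∑ i, ∑ j, del z i j ^ 2 ≤
            16 / s ^ 3 * (8 * d * nsq z + 4 * (d : ℝ) ^ 2) :=
          mul_le_mul_of_nonneg_left h2 (by positivity)
        linarith
    _ ≤ (d : ℝ) ^ 2 * hh z := by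
        have key : 7 * (d : ℝ) ^ 2 / s ^ 2 ≤ 8 / s ^ 2 * (2 * ((d : ℝ) ^ 2 - d)) -
            16 / s ^ 3 * (8 * d * nsq z + 4 * (d : ℝ) ^ 2) := by
          have e : 8 / s ^ 2 * (2 * ((d : ℝ) ^ 2 - d)) -
              16 / s ^ 3 * (8 * d * nsq z + 4 * (d : ℝ) ^ 2) - 7 * (d : ℝ) ^ 2 / s ^ 2 =
              (9 * d * (d - 16) * nsq z + 8 * d * (d - 16)) / s ^ 3 := by
            have : nsq z = s - 8 := by rw [hs]; ring
            rw [this]; field_simp; ring
          have : 0 ≤ (9 * d * (d - 16) * nsq z + 8 * d * ((d : ℝ) - 16)) / s ^ 3 := by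
            have : 0 ≤ (d : ℝ) - 16 := by linarith
            positivity
          linarith
        have key2 : (if nsq z ≤ 2 then d * ((d : ℝ) / 16) else 0) ≤ 7 * (d : ℝ) ^ 2 / s ^ 2 := by
          split_ifs with hz
          · rw [le_div_iff₀ (by positivity)]
            have : s ^ 2 ≤ 100 := by nlinarith
            nlinarith [sq_nonneg (d : ℝ)]
          · positivity
        unfold hh
        rw [← hs]
        linarith

/-- Position after `t` steps of the oriented path with steps `a`. -/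
def pos {n : ℕ} (a : Fin n → Fin d) (t : ℕ) : Fin d → ℤ :=
  ∑ s : Fin n, if (s : ℕ) < t then ev (a s) else 0

lemma pos_zero {n : ℕ} (a : Fin n → Fin d) : pos a 0 = 0 := by simp [pos]

lemma pos_cons {n : ℕ} (i : Fin d) (a : Fin n → Fin d) (t : ℕ) :
    pos (Fin.cons i a : Fin (n + 1) → Fin d) (t + 1) = ev i + pos a t := by
  simp [pos, Fin.sum_univ_succ]

lemma pos_succ {n : ℕ} (a : Fin n → Fin d) {t : ℕ} (ht : t < n) :
    pos a (t + 1) = pos a t + ev (a ⟨t, ht⟩) := by
  have h : ∀ s : Fin n, (if (s : ℕ) < t + 1 then ev (a s) else 0) =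
      (if (s : ℕ) < t then ev (a s) else 0) + (if s = ⟨t, ht⟩ then ev (a s) else 0) := by
    intro s
    by_cases h1 : (s : ℕ) < t
    · have : s ≠ ⟨t, ht⟩ := by rintro rfl; simp at h1
      simp [h1, this, Nat.lt_succ_of_lt h1]
    · by_cases h2 : s = ⟨t, ht⟩
      · subst h2; simp
      · have : ¬ (s : ℕ) < t + 1 := by
          intro h3; apply h2; ext; simp; omega
        simp [h1, h2, this]
  simp only [pos, h, sum_add_distrib, sum_ite_eq', mem_univ, if_true]

/-- The weighted collision count. -/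
noncomputable def WW (c : ℝ) (n : ℕ) (z : Fin d → ℤ) : ℝ :=
  ∑ a : Fin n → Fin d, ∑ b : Fin n → Fin d,
    ∏ t ∈ range n, (if z + pos a (t + 1) - pos b (t + 1) = 0 then c else 1)

lemma sum_cons {n : ℕ} (F : (Fin (n + 1) → Fin d) → ℝ) :
    ∑ a, F a = ∑ i, ∑ a : Fin n → Fin d, F (Fin.cons i a) := by
  rw [← Fintype.sum_prod_type']
  exact (Fintype.sum_equiv (Fin.consEquiv fun _ => Fin d) _ _ fun _ => rfl).symm

lemma WW_succ (c : ℝ) (n : ℕ) (z : Fin d → ℤ) :
    WW c (n + 1) z = ∑ i, ∑ j, (if z + ev i - ev j = 0 then c else 1) *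
      WW c n (z + ev i - ev j) := by
  unfold WW
  rw [sum_cons]
  refine sum_congr rfl fun i _ => ?_
  simp only [sum_cons, mul_sum]
  rw [sum_comm]
  refine sum_congr rfl fun j _ => sum_congr rfl fun a _ => sum_congr rfl fun b _ => ?_
  rw [prod_range_succ', mul_comm]
  simp only [pos_cons, pos_zero, add_zero]
  congr 1
  refine prod_congr rfl fun t _ => ?_
  have : z + (ev i + pos a (t + 1)) - (ev j + pos b (t + 1)) =
      z + ev i - ev j + pos a (t + 1) - pos b (t + 1) := by abel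
  rw [this]

lemma WW_le (hd : 16 ≤ d) {c : ℝ} (hc0 : 0 ≤ c) (hc : c ≤ d / 32) (n : ℕ) (z : Fin d → ℤ) :
    WW c n z ≤ ((d : ℝ) ^ n) ^ 2 * hh z := by
  induction n generalizing z with
  | zero => simpa [WW] using one_le_hh z
  | succ n ih =>
    rw [WW_succ]
    calc _ ≤ ∑ i, ∑ j, (if z + ev i - ev j = 0 then c else 1) *
          (((d : ℝ) ^ n) ^ 2 * hh (z + ev i - ev j)) := by
          refine sum_le_sum fun i _ => sum_le_sum fun j _ =>
            mul_le_mul_of_nonneg_left (ih _) ?_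
          split_ifs
          · exact hc0
          · exact zero_le_one
      _ = ((d : ℝ) ^ n) ^ 2 * ∑ i, ∑ j, (if z + ev i - ev j = 0 then c else 1) *
          hh (z + ev i - ev j) := by
          simp only [mul_sum]
          refine sum_congr rfl fun i _ => sum_congr rfl fun j _ => by ring
      _ ≤ ((d : ℝ) ^ n) ^ 2 * ((d : ℝ) ^ 2 * hh z) :=
          mul_le_mul_of_nonneg_left (lyap_step hd hc z) (by positivity)
      _ = _ := by ring

end Pool.Agent.Work.MP_e5a0e3_pr
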