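import Mathlib

/-! The second moment bound for a finite union of events. -/

namespace Pool.Agent.Work.MP_e5a0e3_pr

open MeasureTheory Finset

lemma second_moment {Ω ι : Type*} [MeasurableSpace Ω] [Fintype ι] [Nonempty ι]
    (μ : Measure Ω) [IsProbabilityMeasure μ] (A : ι → Set Ω) (hA : ∀ i, MeasurableSet (A i))
    (hpos : ∀ i, 0 < μ.real (A i)) (w : ι → ι → ℝ)
    (hw : ∀ i j, μ.real (A i ∩ A j) ≤ μ.real (A i) * μ.real (A j) * w i j) {K : ℝ} (hK : 0 < K)
    (hsum : ∑ i, ∑ j, w i j ≤ K * (Fintype.card ι : ℝ) ^ 2) :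
    1 / K ≤ μ.real (⋃ i, A i) := by
  classical
  set N : ℝ := (Fintype.card ι : ℝ) with hN
  have hN0 : 0 < N := by rw [hN]; exact_mod_cast Fintype.card_pos
  set g : ι → ℝ := fun i => 1 / (K * N * μ.real (A i)) with hg
  have hg0 : ∀ i, 0 < g i := fun i => by have := hpos i; simp only [hg]; positivity
  have hU : MeasurableSet (⋃ i, A i) := MeasurableSet.iUnion hA
  have hint : ∀ (B : Set Ω) (r : ℝ), MeasurableSet B → Integrable (B.indicator fun _ => r) μ :=
    fun B r hB => (integrable_const r).indicator hB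
  have pt : ∀ ω, 2 * ∑ i, (A i).indicator (fun _ => g i) ω -
      ∑ i, ∑ j, (A i ∩ A j).indicator (fun _ => g i * g j) ω ≤
        (⋃ i, A i).indicator (fun _ => (1 : ℝ)) ω := by
    intro ω
    have e : ∑ i, ∑ j, (A i ∩ A j).indicator (fun _ => g i * g j) ω =
        (∑ i, (A i).indicator (fun _ => g i) ω) ^ 2 := by
      rw [sq, sum_mul_sum]
      refine sum_congr rfl fun i _ => sum_congr rfl fun j _ => ?_
      by_cases hi : ω ∈ A i <;> by_cases hj : ω ∈ A j <;> simp [Set.indicator, hi, hj]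
    rw [e]
    by_cases hω : ω ∈ ⋃ i, A i
    · rw [Set.indicator_of_mem hω]
      nlinarith [sq_nonneg (∑ i, (A i).indicator (fun _ => g i) ω - 1)]
    · rw [Set.indicator_of_notMem hω]
      have : ∀ i, (A i).indicator (fun _ => g i) ω = 0 := fun i =>
        Set.indicator_of_notMem (fun h => hω (Set.mem_iUnion.mpr ⟨i, h⟩)) _
      simp [this]
  have i1 : Integrable (fun ω => ∑ i, (A i).indicator (fun _ => g i) ω) μ :=
    integrable_finsetSum _ fun i _ => hint _ _ (hA i)
  have i2' : ∀ i, Integrable (fun ω => ∑ j, (A i ∩ A j).indicator (fun _ => g i * g j) ω) μ :=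
    fun i => integrable_finsetSum _ fun j _ => hint _ _ ((hA i).inter (hA j))
  have i2 : Integrable (fun ω => ∑ i, ∑ j, (A i ∩ A j).indicator (fun _ => g i * g j) ω) μ :=
    integrable_finsetSum _ fun i _ => i2' i
  have hmono := integral_mono ((i1.const_mul 2).sub i2) (hint _ 1 hU) pt
  simp only [Pi.sub_apply] at hmono
  rw [integral_sub (i1.const_mul 2) i2, integral_const_mul,
    integral_finsetSum _ (fun i _ => hint _ _ (hA i)),
    integral_finsetSum _ (fun i _ => i2' i), integral_indicator_const _ hU] at hmono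
  have e1 : ∑ i, ∫ ω, (A i).indicator (fun _ => g i) ω ∂μ = 1 / K := by
    have : ∀ i, ∫ ω, (A i).indicator (fun _ => g i) ω ∂μ = 1 / (K * N) := by
      intro i
      rw [integral_indicator_const _ (hA i)]
      have := hpos i
      simp only [hg, smul_eq_mul]; field_simp
    simp only [this, sum_const, card_univ, nsmul_eq_mul, ← hN]
    field_simp
  have e2 : ∑ i, ∫ ω, ∑ j, (A i ∩ A j).indicator (fun _ => g i * g j) ω ∂μ ≤ 1 / K := by
    have : ∀ i, ∫ ω, ∑ j, (A i ∩ A j).indicator (fun _ => g i * g j) ω ∂μ ≤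
        ∑ j, w i j / (K * N) ^ 2 := by
      intro i
      rw [integral_finsetSum _ (fun j _ => hint _ _ ((hA i).inter (hA j)))]
      refine sum_le_sum fun j _ => ?_
      rw [integral_indicator_const _ ((hA i).inter (hA j)), smul_eq_mul]
      have hi := hpos i
      have hj := hpos j
      calc μ.real (A i ∩ A j) * (g i * g j) ≤ μ.real (A i) * μ.real (A j) * w i j * (g i * g j) :=
            mul_le_mul_of_nonneg_right (hw i j) (mul_pos (hg0 i) (hg0 j)).le
        _ = _ := by simp only [hg]; field_simp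
    calc _ ≤ ∑ i, ∑ j, w i j / (K * N) ^ 2 := sum_le_sum fun i _ => this i
      _ = (∑ i, ∑ j, w i j) / (K * N) ^ 2 := by simp only [sum_div]
      _ ≤ K * N ^ 2 / (K * N) ^ 2 := div_le_div_of_nonneg_right hsum (by positivity)
      _ = 1 / K := by field_simp
  rw [e1, smul_eq_mul, mul_one] at hmono
  linarith

end Pool.Agent.Work.MP_e5a0e3_pr
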