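import Pool.Agent.Work.MP_e5a0e3_pr.Site
import Pool.Agent.Work.MP_e5a0e3_pr.Second

/-! Second moment method over oriented paths. -/

namespace Pool.Agent.Work.MP_e5a0e3_pr

open MeasureTheory ProbabilityTheory Finset Filter Topology

variable {d n : ℕ}

/-- The level of a lattice point. -/
def lev (x : Fin d → ℤ) : ℤ := ∑ i, x i

lemma lev_pos (a : Fin n → Fin d) {t : ℕ} (ht : t ≤ n) : lev (pos a t) = t := by
  induction t with
  | zero => simp [pos_zero, lev]
  | succ t ih =>
    rw [pos_succ a (Nat.lt_of_succ_le ht)]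
    have := ih (Nat.le_of_succ_le ht)
    unfold lev at this ⊢
    simp only [Pi.add_apply, sum_add_distrib, this, ev]
    simp

lemma time_eq (a b : Fin n → Fin d) {s t : ℕ} (hs : s ≤ n) (ht : t ≤ n)
    (h : pos a s = pos b t) : s = t := by
  have := congrArg lev h
  rw [lev_pos a hs, lev_pos b ht] at this
  exact_mod_cast this

/-- The vertices of a path. -/
def VV (a : Fin n → Fin d) : Finset (Fin d → ℤ) := (range (n + 1)).image (pos a)

/-- The path neighbours of a point. -/
def TT (a : Fin n → Fin d) (x : Fin d → ℤ) : Finset (Fin d → ℤ) :=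
  ((range n).filter (fun t => pos a t = x)).image (fun t => pos a (t + 1)) ∪
    ((range n).filter (fun t => pos a (t + 1) = x)).image (pos a)

lemma TT_empty (a : Fin n → Fin d) {x : Fin d → ℤ} (hx : x ∉ VV a) : TT a x = ∅ := by
  unfold TT
  rw [union_eq_empty, image_eq_empty, image_eq_empty, filter_eq_empty_iff, filter_eq_empty_iff]
  constructor
  · intro t ht h
    exact hx (mem_image.mpr ⟨t, mem_range.mpr (by have := mem_range.mp ht; omega), h⟩)
  · intro t ht h
    exact hx (mem_image.mpr ⟨t + 1, mem_range.mpr (by have := mem_range.mp ht; omega), h⟩)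

lemma TT_subset (a : Fin n → Fin d) (x : Fin d → ℤ) : TT a x ⊆ nb x := by
  intro y hy
  rcases mem_union.mp hy with h | h
  · obtain ⟨t, ht, rfl⟩ := mem_image.mp h
    obtain ⟨ht1, ht2⟩ := mem_filter.mp ht
    rw [← ht2, pos_succ a (mem_range.mp ht1)]
    exact mem_union_left _ (mem_image.mpr ⟨_, mem_univ _, rfl⟩)
  · obtain ⟨t, ht, rfl⟩ := mem_image.mp h
    obtain ⟨ht1, ht2⟩ := mem_filter.mp ht
    rw [← ht2, pos_succ a (mem_range.mp ht1)]
    exact mem_union_right _ (mem_image.mpr ⟨a ⟨t, mem_range.mp ht1⟩, mem_univ _, by simp⟩)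

lemma TT_card (a : Fin n → Fin d) (x : Fin d → ℤ) : (TT a x).card ≤ 2 := by
  have h1 : ((range n).filter (fun t => pos a t = x)).card ≤ 1 := by
    rw [card_le_one]
    intro s hs t ht
    obtain ⟨hs, hs'⟩ := mem_filter.mp hs
    obtain ⟨ht, ht'⟩ := mem_filter.mp ht
    exact time_eq a a (mem_range.mp hs).le (mem_range.mp ht).le (hs'.trans ht'.symm)
  have h2 : ((range n).filter (fun t => pos a (t + 1) = x)).card ≤ 1 := by
    rw [card_le_one]
    intro s hs t ht
    obtain ⟨hs, hs'⟩ := mem_filter.mp hs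
    obtain ⟨ht, ht'⟩ := mem_filter.mp ht
    have := time_eq a a (mem_range.mp hs) (mem_range.mp ht) (hs'.trans ht'.symm)
    omega
  refine (card_union_le _ _).trans ?_
  have := card_image_le (s := (range n).filter (fun t => pos a t = x))
    (f := fun t => pos a (t + 1))
  have := card_image_le (s := (range n).filter (fun t => pos a (t + 1) = x)) (f := pos a)
  omega

/-- The event that the path is open. -/
def AA (a : Fin n → Fin d) : Set ((Fin d → ℤ) → Finset (Fin d → ℤ)) :=
  Set.pi ↑(VV a) fun x => {s | TT a x ⊆ s}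

lemma AA_eq (a : Fin n → Fin d) {S : Finset (Fin d → ℤ)} (hS : VV a ⊆ S) :
    AA a = Set.pi ↑S fun x => {s | TT a x ⊆ s} := by
  ext ω
  constructor
  · intro h x _
    by_cases hx : x ∈ VV a
    · exact h x hx
    · simp [TT_empty a hx]
  · intro h x hx
    exact h x (hS hx)

lemma meas_all (B : Set (Finset (Fin d → ℤ))) : MeasurableSet B := (Set.to_countable B).measurableSet

lemma AA_meas (a : Fin n → Fin d) : MeasurableSet (AA a) :=
  MeasurableSet.pi (Set.to_countable _) fun _ _ => meas_all _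

lemma law_pi {k : ℕ} (hk : k ≤ 2 * d) (S : Finset (Fin d → ℤ))
    (T : (Fin d → ℤ) → Finset (Fin d → ℤ)) :
    (law d k).real (Set.pi ↑S fun x => {s | T x ⊆ s}) =
      ∏ x ∈ S, (site k x).real {s | T x ⊆ s} := by
  have := site_prob hk
  have e : law d k = Measure.infinitePi (site k) := rfl
  rw [e, Measure.real, Measure.infinitePi_pi _ fun _ _ => meas_all _, ENNReal.toReal_prod]
  rfl

lemma law_prob {k : ℕ} (hk : k ≤ 2 * d) : IsProbabilityMeasure (law d k) := by
  have := site_prob hk
  have e : law d k = Measure.infinitePi (site k) := rfl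
  rw [e]; infer_instance

section main

variable {k : ℕ} (hd : 1 ≤ d) (hk : k ≤ 2 * d) (hdk : 128 * d ≤ k * (k - 1))
include hd hk hdk

lemma dim_ge : 32 ≤ d := by
  by_contra h
  have h1 : k * (k - 1) ≤ (2 * d) * 63 := Nat.mul_le_mul hk (by omega)
  omega

lemma AA_pos (a : Fin n → Fin d) : 0 < (law d k).real (AA a) := by
  rw [AA, law_pi hk]
  refine prod_pos fun x _ => ?_
  have h := site_lower hd hk hdk x (TT_subset a x) (TT_card a x)
  have h0 : (0 : ℝ) ≤ (site k x).real {s | TT a x ⊆ s} := measureReal_nonneg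
  rcases h0.lt_or_eq with h1 | h1
  · exact h1
  · rw [← h1] at h; norm_num at h

lemma AA_inter (a b : Fin n → Fin d) :
    (law d k).real (AA a ∩ AA b) ≤ (law d k).real (AA a) * (law d k).real (AA b) *
      ((d : ℝ) / 32 * ∏ t ∈ range n,
        (if 0 + pos a (t + 1) - pos b (t + 1) = 0 then (d : ℝ) / 32 else 1)) := by
  classical
  have hprob := site_prob hk
  set c : ℝ := d / 32 with hc
  have hc0 : 0 ≤ c := by positivity
  have e : AA a ∩ AA b = Set.pi ↑(VV a ∪ VV b) fun x => {s | TT a x ∪ TT b x ⊆ s} := by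
    rw [AA_eq a (subset_union_left (s₂ := VV b)), AA_eq b (subset_union_right (s₁ := VV a))]
    ext ω
    simp only [Set.mem_inter_iff, Set.mem_pi, Set.mem_ofPred_eq, union_subset_iff]
    exact ⟨fun h x hx => ⟨h.1 x hx, h.2 x hx⟩, fun h => ⟨fun x hx => (h x hx).1,
      fun x hx => (h x hx).2⟩⟩
  have e2 : c * ∏ t ∈ range n, (if 0 + pos a (t + 1) - pos b (t + 1) = 0 then c else 1) =
      ∏ x ∈ VV a ∪ VV b, (if x ∈ VV a ∧ x ∈ VV b then c else 1) := by
    rw [← prod_subset (subset_union_left (s₁ := VV a) (s₂ := VV b))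
      (fun x _ hx => if_neg fun h => hx h.1)]
    conv_rhs => rw [VV]
    rw [prod_image]
    · rw [prod_range_succ', mul_comm]
      congr 1
      · refine prod_congr rfl fun t ht => ?_
        have ht' := mem_range.mp ht
        refine if_congr ?_ rfl rfl
        rw [zero_add, sub_eq_zero]
        constructor
        · intro h
          exact ⟨mem_image.mpr ⟨t + 1, mem_range.mpr (by omega), rfl⟩,
            mem_image.mpr ⟨t + 1, mem_range.mpr (by omega), h.symm⟩⟩
        · rintro ⟨-, h⟩
          obtain ⟨s, hs, h⟩ := mem_image.mp h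
          have hs' := mem_range.mp hs
          have := time_eq b a (by omega) (by omega : t + 1 ≤ n) h
          rw [← h, this]
      · rw [if_pos]
        exact ⟨mem_image.mpr ⟨0, mem_range.mpr (by omega), rfl⟩,
          mem_image.mpr ⟨0, mem_range.mpr (by omega), by rw [pos_zero, pos_zero]⟩⟩
    · intro s hs t ht h
      have hs' := mem_range.mp hs
      have ht' := mem_range.mp ht
      exact time_eq a a (by omega) (by omega) h
  rw [e2, e, AA_eq a (subset_union_left (s₂ := VV b)), AA_eq b (subset_union_right (s₁ := VV a)),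
    law_pi hk, law_pi hk, law_pi hk, ← prod_mul_distrib, ← prod_mul_distrib]
  refine prod_le_prod (fun _ _ => measureReal_nonneg) fun x _ => ?_
  by_cases ha : x ∈ VV a
  · by_cases hb : x ∈ VV b
    · rw [if_pos ⟨ha, hb⟩]
      have h1 : (site k x).real {s | TT a x ∪ TT b x ⊆ s} ≤ (site k x).real {s | TT a x ⊆ s} :=
        measureReal_mono fun s hs => subset_union_left.trans hs
      have h2 := site_lower hd hk hdk x (TT_subset b x) (TT_card b x)
      have h0 : (0 : ℝ) ≤ (site k x).real {s | TT a x ⊆ s} := measureReal_nonneg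
      rw [← hc] at h2
      nlinarith
    · rw [if_neg fun h => hb h.2, TT_empty b hb]
      simp
  · rw [if_neg fun h => ha h.1, TT_empty a ha]
    simp

lemma union_lower (n : ℕ) : 1 / ((d : ℝ) / 16) ≤ (law d k).real (⋃ a : Fin n → Fin d, AA a) := by
  have := law_prob hk
  have : Nonempty (Fin d) := ⟨⟨0, hd⟩⟩
  have hd0 : (0 : ℝ) < d := by exact_mod_cast hd
  refine second_moment (law d k) AA AA_meas (AA_pos hd hk hdk) _ (AA_inter hd hk hdk)
    (by positivity) ?_
  have h := WW_le (d := d) (by have := dim_ge hd hk hdk; omega) (c := (d : ℝ) / 32)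
    (by positivity) le_rfl n 0
  rw [hh_zero, WW] at h
  simp only [← mul_sum, Fintype.card_fun, Fintype.card_fin, Nat.cast_pow]
  have := mul_le_mul_of_nonneg_left h (by positivity : (0 : ℝ) ≤ d / 32)
  linarith

omit hd hk hdk in
lemma AA_reach (a : Fin n → Fin d) {N : (Fin d → ℤ) → Finset (Fin d → ℤ)} (h : N ∈ AA a)
    {t : ℕ} (ht : t ≤ n) : Relation.ReflTransGen (IsOpenEdge N) 0 (pos a t) := by
  induction t with
  | zero => rw [pos_zero]
  | succ t ih =>
    refine (ih (by omega)).tail ?_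
    have h1 : pos a (t + 1) ∈ TT a (pos a t) := mem_union_left _
      (mem_image.mpr ⟨t, mem_filter.mpr ⟨mem_range.mpr (by omega), rfl⟩, rfl⟩)
    have h2 : pos a t ∈ TT a (pos a (t + 1)) := mem_union_right _
      (mem_image.mpr ⟨t, mem_filter.mpr ⟨mem_range.mpr (by omega), rfl⟩, rfl⟩)
    refine ⟨mem_nb.mp (TT_subset a _ h1), ?_, ?_⟩
    · exact h (pos a t) (mem_image.mpr ⟨t, mem_range.mpr (by omega), rfl⟩) h1
    · exact h (pos a (t + 1)) (mem_image.mpr ⟨t + 1, mem_range.mpr (by omega), rfl⟩) h2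

theorem theta_pos : 0 < theta k d := by
  have := law_prob hk
  have hd0 : (0 : ℝ) < d := by exact_mod_cast hd
  set U : ℕ → Set ((Fin d → ℤ) → Finset (Fin d → ℤ)) := fun n => ⋃ a : Fin n → Fin d, AA a
    with hU
  set C : ℕ → Set ((Fin d → ℤ) → Finset (Fin d → ℤ)) := fun n => ⋃ m, ⋃ _ : n ≤ m, U m with hC
  have hCm : ∀ n, MeasurableSet (C n) := fun n =>
    MeasurableSet.iUnion fun m => MeasurableSet.iUnion fun _ => MeasurableSet.iUnion AA_meas
  have hanti : Antitone C := by
    intro m n hmn ω hω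
    obtain ⟨l, hl⟩ := Set.mem_iUnion.mp hω
    obtain ⟨hl, hω⟩ := Set.mem_iUnion.mp hl
    exact Set.mem_iUnion.mpr ⟨l, Set.mem_iUnion.mpr ⟨hmn.trans hl, hω⟩⟩
  have hlow : ∀ n, ENNReal.ofReal (1 / ((d : ℝ) / 16)) ≤ law d k (C n) := by
    intro n
    refine le_trans ?_ (measure_mono (s := U n) fun ω hω =>
      Set.mem_iUnion.mpr ⟨n, Set.mem_iUnion.mpr ⟨le_rfl, hω⟩⟩)
    rw [ENNReal.ofReal_le_iff_le_toReal (measure_ne_top _ _)]
    exact union_lower hd hk hdk n
  have hlim := tendsto_measure_iInter_atTop (μ := law d k) (fun n => (hCm n).nullMeasurableSet)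
    hanti ⟨0, measure_ne_top _ _⟩
  have hge := ge_of_tendsto' hlim hlow
  have hpos : 0 < ENNReal.ofReal (1 / ((d : ℝ) / 16)) := ENNReal.ofReal_pos.mpr (by positivity)
  refine hpos.trans_le (hge.trans (measure_mono fun N hN => ?_))
  refine Set.Infinite.of_image lev (Set.infinite_of_forall_exists_gt fun z => ?_)
  obtain ⟨m, hm⟩ := Set.mem_iUnion.mp (Set.mem_iInter.mp hN (z.toNat + 1))
  obtain ⟨hm, h⟩ := Set.mem_iUnion.mp hm
  obtain ⟨a, ha⟩ := Set.mem_iUnion.mp h
  refine ⟨m, ⟨pos a m, AA_reach a ha le_rfl, lev_pos a le_rfl⟩, by omega⟩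

end main

end Pool.Agent.Work.MP_e5a0e3_pr
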