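import Pool.Agent.Work.MP_e5a0e3_pr.Defs
import Pool.Agent.Work.MP_e5a0e3_pr.Lyap

/-! The one-site law. -/

namespace Pool.Agent.Work.MP_e5a0e3_pr

open MeasureTheory ProbabilityTheory Finset

variable {d : ℕ}

/-- The neighbours as a finite set. -/
def nb (x : Fin d → ℤ) : Finset (Fin d → ℤ) :=
  (univ.image fun i => x + ev i) ∪ (univ.image fun i => x - ev i)

lemma mem_nb {x y : Fin d → ℤ} : y ∈ nb x ↔ y ∈ nbrs x := by
  simp only [nb, nbrs, mem_union, mem_image, mem_univ, true_and, Set.mem_ofPred_eq, ev]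
  constructor
  · rintro (⟨i, rfl⟩ | ⟨i, rfl⟩)
    · exact ⟨i, Or.inl rfl⟩
    · exact ⟨i, Or.inr rfl⟩
  · rintro ⟨i, rfl | rfl⟩
    · exact Or.inl ⟨i, rfl⟩
    · exact Or.inr ⟨i, rfl⟩

lemma card_nb (x : Fin d → ℤ) : (nb x).card = 2 * d := by
  unfold nb
  rw [card_union_of_disjoint, card_image_of_injective, card_image_of_injective]
  · simp; ring
  · intro i j h
    exact ev_injective (sub_right_injective h)
  · intro i j h
    exact ev_injective (add_left_cancel h)
  · rw [disjoint_left]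
    intro y h1 h2
    obtain ⟨i, -, rfl⟩ := mem_image.mp h1
    obtain ⟨j, -, h⟩ := mem_image.mp h2
    have := congrFun h i
    by_cases hij : i = j
    · subst hij
      simp [ev] at this
      omega
    · simp [ev, hij] at this

/-- The one-site law. -/
noncomputable def site (k : ℕ) (x : Fin d → ℤ) : Measure (Finset (Fin d → ℤ)) :=
  uniformOn {s : Finset (Fin d → ℤ) | ↑s ⊆ nbrs x ∧ s.card = k}

lemma site_eq (k : ℕ) (x : Fin d → ℤ) :
    {s : Finset (Fin d → ℤ) | ↑s ⊆ nbrs x ∧ s.card = k} = ↑(powersetCard k (nb x)) := by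
  ext s
  simp only [Set.mem_ofPred_eq, mem_coe, mem_powersetCard]
  refine and_congr_left fun _ => ⟨fun h y hy => mem_nb.mpr (h hy), fun h y hy => mem_nb.mp (h hy)⟩

lemma site_prob {k : ℕ} (hk : k ≤ 2 * d) (x : Fin d → ℤ) : IsProbabilityMeasure (site k x) := by
  unfold site
  rw [site_eq]
  refine isProbabilityMeasure_uniformOn (finite_toSet _) ?_
  rw [coe_nonempty, powersetCard_nonempty, card_nb]
  exact hk

lemma choose_two_step (m j : ℕ) :
    (m + 2).choose (j + 2) * ((j + 2) * (j + 1)) = (m + 2) * (m + 1) * m.choose j := by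
  have h1 := Nat.add_one_mul_choose_eq (m + 1) (j + 1)
  have h2 := Nat.add_one_mul_choose_eq m j
  calc (m + 2).choose (j + 2) * ((j + 2) * (j + 1))
      = ((m + 1 + 1).choose (j + 1 + 1) * (j + 1 + 1)) * (j + 1) := by ring
    _ = (m + 1 + 1) * ((m + 1).choose (j + 1) * (j + 1)) := by rw [← h1]; ring
    _ = _ := by rw [← h2]; ring

lemma site_lower {k : ℕ} (hd : 1 ≤ d) (hk : k ≤ 2 * d) (hdk : 128 * d ≤ k * (k - 1))
    (x : Fin d → ℤ) {T : Finset (Fin d → ℤ)} (hT : T ⊆ nb x) (hT2 : T.card ≤ 2) :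
    1 ≤ (d : ℝ) / 32 * (site k x).real {s | T ⊆ s} := by
  classical
  have := site_prob hk x
  obtain ⟨T', hTT', hT'n, hT'⟩ := exists_subsuperset_card_eq hT hT2 (by rw [card_nb]; omega)
  have hk2 : 2 ≤ k := by
    by_contra h
    have : k = 0 ∨ k = 1 := by omega
    rcases this with rfl | rfl <;> simp at hdk <;> omega
  have hsub : (↑((powersetCard k (nb x)).filter (T' ⊆ ·)) : Set (Finset (Fin d → ℤ))) ⊆
      {s | T ⊆ s} := by
    intro s hs
    exact hTT'.trans (mem_filter.mp hs).2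
  have hval : (site k x).real ↑((powersetCard k (nb x)).filter (T' ⊆ ·)) =
      ((2 * d - 2).choose (k - 2) : ℝ) / ((2 * d).choose k : ℝ) := by
    unfold site
    rw [site_eq, Measure.real, uniformOn_apply_finset, inter_eq_right.mpr (filter_subset _ _),
      card_filter_powersetCard_subset _ _ _ hT'n (by omega), card_powersetCard, card_nb, hT']
    simp
  have hmono : (site k x).real ↑((powersetCard k (nb x)).filter (T' ⊆ ·)) ≤
      (site k x).real {s | T ⊆ s} := measureReal_mono hsub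
  refine le_trans ?_ (mul_le_mul_of_nonneg_left hmono (by positivity))
  rw [hval]
  obtain ⟨j, rfl⟩ : ∃ j, k = j + 2 := ⟨k - 2, by omega⟩
  obtain ⟨m, hm⟩ : ∃ m, 2 * d = m + 2 := ⟨2 * d - 2, by omega⟩
  have hid := choose_two_step m j
  have hC : 0 < (m + 2).choose (j + 2) := Nat.choose_pos (by omega)
  rw [hm]
  simp only [Nat.add_sub_cancel]
  have hdk' : 128 * d ≤ (j + 2) * (j + 1) := hdk
  have hC' : (0 : ℝ) < ((m + 2).choose (j + 2) : ℕ) := by exact_mod_cast hC
  rw [div_mul_div_comm, le_div_iff₀ (by positivity), one_mul]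
  have key : 32 * (m + 2).choose (j + 2) ≤ d * m.choose j := by
    have h1 : (m + 2).choose (j + 2) * (128 * d) ≤ (m + 2) * (m + 1) * m.choose j := by
      rw [← hid]; exact Nat.mul_le_mul_left _ hdk'
    have h2 : (m + 2) * (m + 1) * m.choose j ≤ (2 * d) * (2 * d) * m.choose j :=
      Nat.mul_le_mul_right _ (Nat.mul_le_mul (by omega) (by omega))
    have h3 : (4 * d) * (32 * (m + 2).choose (j + 2)) ≤ (4 * d) * (d * m.choose j) := by
      nlinarith
    exact Nat.le_of_mul_le_mul_left h3 (by omega)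
  exact_mod_cast key

end Pool.Agent.Work.MP_e5a0e3_pr
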